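import Pool.Agent.H94.CB.H36.BP.Defs

/-!
# EF Defs: surfaces with a holomorphic map to an elliptic curve

`X` is the cone (without `0`) of a smooth projective surface, in `EN N = ℂ^(N+1)` with the Euclidean norm.  The map to `ℂ / Λ` is
given by a function `u : EN N → ℂ` which is holomorphic modulo `Λ`.  `pr x` is the orthogonal projection to the line of `x`, a
matrix: in this way the projective space is a compact subset of a Euclidean space.
-/

set_option autoImplicit false

open Topology Filter Metric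

namespace Pool.Agent.H62.EF

attribute [-instance] ProperSMul.toContinuousSMul

open Pool.Agent.H36.BP (EN fs wd)

variable {N : ℕ}

/-- matrices with the Frobenius norm -/
abbrev MN (N : ℕ) : Type := EuclideanSpace ℂ (Fin (N + 1) × Fin (N + 1))

/-- the orthogonal projection to the line of `x` -/
noncomputable def pr (x : EN N) : MN N :=
  WithLp.toLp 2 fun i => x i.1 * (starRingEnd ℂ) (x i.2) / ((‖x‖ ^ 2 : ℝ) : ℂ)

/-- `Λ` is a lattice in `ℂ` -/
structure Lat (Λ : AddSubgroup ℂ) : Prop where
  discrete : ∃ δ : ℝ, 0 < δ ∧ ∀ l ∈ Λ, ‖l‖ < δ → l = 0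
  cocompact : ∃ R : ℝ, 0 < R ∧ ∀ z : ℂ, ∃ l ∈ Λ, ‖z - l‖ ≤ R

/-- the determinant -/
def det2 (a b : ℂ × ℂ) : ℂ := a.1 * b.2 - a.2 * b.1

end Pool.Agent.H62.EF
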